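import Pool.Agent.H.MP_62749c_al.Main

namespace Pool.Agent.Results.MP_62749c_al.Q12

open Pool.Agent.H.MP_62749c_al

theorem result (F H : Type*) [Group F] [Group H]
    (hF : ∃ F0 : Subgroup F, F0.FiniteIndex ∧ IsFreeGroup F0)
    (hH : ∃ H0 : Subgroup H, H0.FiniteIndex ∧ Group.IsNilpotent H0) :
    MalcevCoherent (F × H) := by
  obtain ⟨F0, h1, h2⟩ := hF
  obtain ⟨H0, h3, h4⟩ := hH
  exact coherent_of_fng (MonoidHom.id _) Function.injective_id fun _ φ => main_fng F0 H0 φ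

end Pool.Agent.Results.MP_62749c_al.Q12
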